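import Pool.Agent.Y759.DS.Ballot
import Pool.Agent.H777R4.DM.DMN

/-!
# MP_a57f33_nt: the equality `g = dm` can be tested on the ballot words

A word in `x₀, x₁` is a ballot word if its last letter is `x₁` and no initial segment contains more
letters `x₀` than letters `x₁`. An element of the double shuffle Lie algebra `dm` is determined by
its coefficients at the ballot words. So, if `g` is a subspace of `dm` (for example the motivic Lie
algebra), then `g = dm` if and only if every element of `dm` has the same coefficients at the ballot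
words as some element of `g`; and in a fixed weight `N` a subspace `g` of the part `dm_N` of weight
`N` is all of `dm_N` if and only if the coefficient vectors at the ballot words of length `N` of the
elements of `g` and of the elements of `dm_N` span spaces of the same dimension. In particular an
element of `dm_N` is determined by its coefficients at the words with less than `N / 2` letters `x₀`.
-/

set_option autoImplicit false

namespace Pool.Agent.Results.MP_a57f33_nt.BallotWords

open Pool.Agent.H777R4.DM

/-- Ballot words: the last letter is `x₁`, and no initial segment contains more letters `x₀` than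
letters `x₁`. -/
def Ballot (u : List (Fin 2)) : Prop :=
  (∃ v, u = v ++ [1]) ∧ ∀ p, p <+: u → p.count 0 ≤ p.count 1

/-- The part of weight `N` of `dm`. -/
noncomputable def dmW (N : ℕ) : Submodule ℚ A where
  carrier := {ψ | IsDM ψ ∧ ∀ u, co ψ u ≠ 0 → u.length = N}
  add_mem' := by
    rintro a b ⟨h1, h2⟩ ⟨h3, h4⟩
    refine ⟨isDM_add h1 h3, fun u hu => ?_⟩
    by_contra hne
    apply hu
    rw [co_add, not_not.1 fun h => hne (h2 u h), not_not.1 fun h => hne (h4 u h), add_zero]
  zero_mem' := ⟨isDM_zero, fun u hu => absurd (co_zero u) hu⟩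
  smul_mem' := by
    rintro c a ⟨h1, h2⟩
    refine ⟨isDM_smul h1 c, fun u hu => h2 u fun h => hu ?_⟩
    rw [co_smul, h, mul_zero]

/-- The coefficients at the ballot words of length `N`. -/
noncomputable def coeffs (N : ℕ) : A →ₗ[ℚ] ({u : List (Fin 2) // Ballot u ∧ u.length = N} → ℚ) where
  toFun ψ u := co ψ u.1
  map_add' ψ φ := funext fun u => co_add ψ φ u.1
  map_smul' c ψ := funext fun u => co_smul c ψ u.1

theorem prefix_cases {p l₁ l₂ : List (Fin 2)} (h : p <+: l₁ ++ l₂) :
    p <+: l₁ ∨ ∃ q, q <+: l₂ ∧ p = l₁ ++ q := by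
  rcases List.prefix_or_prefix_of_prefix h (List.prefix_append l₁ l₂) with h1 | ⟨q, rfl⟩
  · exact Or.inl h1
  · exact Or.inr ⟨q, (List.prefix_append_right_inj _).1 h, rfl⟩

theorem count_of_bal (a : List ℕ) : ∀ k : ℕ, 0 < k → Y759.QS.Bal k a → ∀ p, p <+: wordX a →
    p.count 0 < p.count 1 + k := by
  induction a with
  | nil =>
    intro k hk _ p hp
    rw [wordX, List.prefix_nil] at hp
    subst hp
    simpa using hk
  | cons b l ih =>
    intro k hk hB p hp
    have hb : b < k := by
      have := hB 0 (by simp)
      simpa using this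
    rw [wordX] at hp
    rcases prefix_cases hp with h | ⟨q, hq, rfl⟩
    · have h0 : p.count 0 ≤ b := by
        have := h.sublist.count_le 0
        simpa using this
      omega
    · rcases q with _ | ⟨c, q⟩
      · simp only [List.append_nil, List.count_replicate_self]
        have : List.count (1 : Fin 2) (List.replicate b 0) = 0 := by simp [List.count_replicate]
        omega
      · have hc := List.cons_prefix_cons.1 hq
        obtain ⟨rfl, hq'⟩ := hc
        have hl : Y759.QS.Bal (k + 1 - b) l := by
          intro i hi
          have := hB (i + 1) (by simpa using hi)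
          rw [List.take_succ_cons, List.sum_cons] at this
          omega
        have := ih (k + 1 - b) (by omega) hl q hq'
        rw [List.count_append, List.count_append, List.count_cons_self, List.count_cons_of_ne (by decide),
          List.count_replicate_self]
        have h1 : List.count (1 : Fin 2) (List.replicate b 0) = 0 := by simp [List.count_replicate]
        omega

theorem ballot_of_bal {a : List ℕ} (ha : a ≠ []) (h : Y759.QS.Bal 1 a) : Ballot (wordX a) := by
  refine ⟨?_, fun p hp => ?_⟩
  · clear h
    induction a with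
    | nil => exact absurd rfl ha
    | cons b l ih =>
      rcases l with _ | ⟨c, l⟩
      · exact ⟨List.replicate b 0, rfl⟩
      · obtain ⟨v, hv⟩ := ih (by simp)
        refine ⟨List.replicate b 0 ++ 1 :: v, ?_⟩
        rw [wordX, hv]
        simp
  · have := count_of_bal a 1 one_pos h p hp
    omega

theorem nil_zero {ψ : A} (h : IsDM ψ) : co ψ [] = 0 := by
  by_contra hne
  have := (taskSmall_proof taskTwoB Pool.Agent.H352.DSH.taskTwoC ψ h [] hne).1
  simp at this

theorem det {ψ φ : A} (h : IsDM ψ) (h' : IsDM φ) (hB : ∀ u, Ballot u → co ψ u = co φ u) :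
    ψ = φ := by
  have h1 : IsDM (ψ - φ) := by
    rw [sub_eq_add_neg, show -φ = (-1 : ℚ) • φ by simp]
    exact isDM_add h (isDM_smul h' _)
  rw [← sub_eq_zero]
  refine Y759.QS.ballot h1 fun a ha => ?_
  rcases eq_or_ne a [] with rfl | hne
  · exact nil_zero h1
  · rw [co_sub, hB _ (ballot_of_bal hne ha), sub_self]

theorem finite_words (N : ℕ) : Finite {u : List (Fin 2) // Ballot u ∧ u.length = N} := by
  have : {u : List (Fin 2) | u.length = N}.Finite := List.finite_length_eq (Fin 2) N
  exact (this.subset fun u hu => hu.2 : {u : List (Fin 2) | Ballot u ∧ u.length = N}.Finite)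

theorem coeffs_inj (N : ℕ) : Function.Injective ((coeffs N).domRestrict (dmW N)) := by
  rintro ⟨ψ, h1, h2⟩ ⟨φ, h3, h4⟩ h
  apply Subtype.ext
  refine det h1 h3 fun u hu => ?_
  by_cases hN : u.length = N
  · exact congrFun h ⟨u, hu, hN⟩
  · rw [not_not.1 fun h => hN (h2 u h), not_not.1 fun h => hN (h4 u h)]

/-- (1) An element of `dm` is determined by its coefficients at the ballot words. (2) A subspace `g`
of `dm` is all of `dm` if (and only if) every element of `dm` has the same coefficients at the ballot
words as some element of `g`. (3) The part `dm_N` of weight `N` of `dm` has dimension at most the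
number of ballot words of length `N`, and a subspace `g` of `dm_N` is all of `dm_N` if and only if
the spaces of the coefficient vectors at the ballot words of length `N` of the elements of `g` and of
`dm_N` have the same dimension. (4) Two elements of `dm_N` which have the same coefficients at all
words with less than `N / 2` letters `x₀` are equal. -/
theorem result :
    (∀ ψ φ : A, IsDM ψ → IsDM φ → (∀ u, Ballot u → co ψ u = co φ u) → ψ = φ) ∧
    (∀ g : Submodule ℚ A, (∀ ψ ∈ g, IsDM ψ) →
      ((∀ ψ : A, IsDM ψ → ψ ∈ g) ↔
        ∀ ψ : A, IsDM ψ → ∃ φ ∈ g, ∀ u, Ballot u → co ψ u = co φ u)) ∧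
    (∀ N : ℕ, Module.Finite ℚ (dmW N) ∧
      Module.finrank ℚ (dmW N) ≤ Nat.card {u : List (Fin 2) // Ballot u ∧ u.length = N} ∧
      ∀ g : Submodule ℚ A, g ≤ dmW N →
        (g = dmW N ↔ Module.finrank ℚ (g.map (coeffs N)) =
          Module.finrank ℚ ((dmW N).map (coeffs N)))) ∧
    (∀ N : ℕ, ∀ ψ ∈ dmW N, ∀ φ ∈ dmW N,
      (∀ u, 2 * u.count 0 < N → co ψ u = co φ u) → ψ = φ) := by
  refine ⟨fun ψ φ => det, fun g hg => ⟨fun h ψ hψ => ⟨ψ, h ψ hψ, fun _ _ => rfl⟩,
    fun h ψ hψ => ?_⟩, fun N => ?_, fun N ψ hψ φ hφ h => ?_⟩
  · obtain ⟨φ, h1, h2⟩ := h ψ hψ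
    rw [det hψ (hg φ h1) h2]
    exact h1
  · haveI := finite_words N
    haveI : Fintype {u : List (Fin 2) // Ballot u ∧ u.length = N} := Fintype.ofFinite _
    have hfin : Module.Finite ℚ (dmW N) := Module.Finite.of_injective _ (coeffs_inj N)
    refine ⟨hfin, ?_, fun g hg => ⟨fun h => by rw [h], fun h => ?_⟩⟩
    · have := LinearMap.finrank_le_finrank_of_injective (coeffs_inj N)
      rwa [Module.finrank_fintype_fun_eq_card, ← Nat.card_eq_fintype_card] at this
    · have hmap : g.map (coeffs N) = (dmW N).map (coeffs N) :=
        Submodule.eq_of_le_of_finrank_eq (Submodule.map_mono hg) h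
      refine le_antisymm hg fun ψ hψ => ?_
      have h1 : coeffs N ψ ∈ g.map (coeffs N) := by
        rw [hmap]
        exact Submodule.mem_map_of_mem hψ
      obtain ⟨φ, h2, h3⟩ := h1
      have h4 := @coeffs_inj N ⟨φ, hg h2⟩ ⟨ψ, hψ⟩ h3
      have h5 : φ = ψ := congrArg Subtype.val h4
      rw [← h5]
      exact h2
  · have h1 : ψ - φ ∈ dmW N := Submodule.sub_mem _ hψ hφ
    rw [← sub_eq_zero]
    refine Y759.QS.half h1.1 h1.2 fun u hu => ?_
    by_contra hlt
    exact hu (by rw [co_sub, h u (by omega), sub_self])

end Pool.Agent.Results.MP_a57f33_nt.BallotWords
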