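import Mathlib
import Pool.Agent.Q217.MZ.Euler

/-!
# MP_a57f33_nt: relations with even constants in front follow from the regularized double shuffle relations

A pattern is a list of letters `(a, b)`; its index at `n` has the arguments `a n + b`. Let `w_1, ..., w_k` be patterns such
that the constant arguments in front of the first growing argument of `w_i` are all equal to an even number `2 b_i` (or there
are none), such as in `ζ(2, n)`, `ζ(2, 2, n, 3)`, `ζ(4, 4, 4, 2 n + 1)`. Let `f` be an integer polynomial of bounded degree
with coefficients of absolute value at most `C ^ n`. If `f` vanishes, or is very small, at the multiple zeta values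
`ζ(w_i(n))`, `n` large, then for all `n' ≥ 2` it vanishes at the `φ(w_i(n'))` for all solutions `φ` of the double shuffle
equations in `ℚ`-algebras.

Relations between motivic multiple zeta values hold between the real numbers. So the relations of this shape between motivic
multiple zeta values follow from the regularized double shuffle relations.

The proof shows that the double shuffle equations imply Euler's formula for the even values: for every solution, the value of
`2 b` is the rational multiple of the `b`-th power of the value of `2` which one knows for the zeta function.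
-/

set_option autoImplicit false

namespace Pool.Agent.Results.MP_a57f33_nt.EvenBlocks

/-- `trunc [s_1, ..., s_r] m` is the sum of `∏ k_i ^ (-s_i)` over `m > k_1 > ... > k_r ≥ 1` -/
noncomputable def trunc : List ℕ → ℕ → ℝ
  | [], _ => 1
  | s :: l, m => ∑ j ∈ Finset.Ico 1 m, trunc l j / (j : ℝ) ^ s

/-- the multiple zeta value `ζ(s_1, ..., s_r)`, `s_1` belongs to the largest variable -/
noncomputable def mzv : List ℕ → ℝ
  | [] => 1
  | s :: l => ∑' k : ℕ, trunc l (k + 1) / ((k + 1 : ℕ) : ℝ) ^ s

/-- the word `y_{k_1} ... y_{k_t}`, where `y_k = x ^ (k - 1) y`, `x = false`, `y = true` -/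
def word : List ℕ → List Bool
  | [] => []
  | k :: l => List.replicate (k - 1) false ++ true :: word l

/-- the list of the shuffles of two words -/
def shuffles : List Bool → List Bool → List (List Bool)
  | [], v => [v]
  | a :: u, [] => [a :: u]
  | a :: u, b :: v => (shuffles u (b :: v)).map (a :: ·) ++ (shuffles (a :: u) v).map (b :: ·)
termination_by u v => u.length + v.length

/-- the list of the indices in the stuffle product of two indices -/
def stuffles : List ℕ → List ℕ → List (List ℕ)
  | [], l => [l]
  | i :: k, [] => [i :: k]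
  | i :: k, j :: l => (stuffles k (j :: l)).map (i :: ·) ++ (stuffles (i :: k) l).map (j :: ·) ++
      (stuffles k l).map ((i + j) :: ·)
termination_by k l => k.length + l.length

/-- admissible indices: all entries are at least one, the first one is at least two; the empty index is admissible -/
def AdmissibleIndex (l : List ℕ) : Prop := (∀ a ∈ l, 1 ≤ a) ∧ ∀ a t, l = a :: t → 2 ≤ a

/-- solutions of the double shuffle equations: `φ (1) = 1`, `φ (u) φ (v) = φ (u * v)` and `φ (u) φ (v) = φ (u sh v)` for all
words `u`, `v` of admissible indices, and `φ (y sh v) = φ (y * v)` for all words `v` of admissible indices -/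
structure IsSolution {A : Type} [CommRing A] (φ : List Bool → A) : Prop where
  one : φ [] = 1
  stuffle : ∀ k l, AdmissibleIndex k → AdmissibleIndex l →
    φ (word k) * φ (word l) = ((stuffles k l).map fun m => φ (word m)).sum
  shuffle : ∀ k l, AdmissibleIndex k → AdmissibleIndex l →
    φ (word k) * φ (word l) = ((shuffles (word k) (word l)).map φ).sum
  hoffman : ∀ l, AdmissibleIndex l →
    ((shuffles [true] (word l)).map φ).sum = ((stuffles [1] l).map fun m => φ (word m)).sum

/-- admissible patterns: the letter `(0, 0)` does not occur, and a constant first letter is at least two -/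
def AdmissiblePattern (w : List (ℕ × ℕ)) : Prop :=
  (∀ x ∈ w, x ≠ (0, 0)) ∧ ∀ x l, w = x :: l → x.1 = 0 → 2 ≤ x.2

/-- the index with the arguments `a n + b` -/
def args (n : ℕ) (w : List (ℕ × ℕ)) : List ℕ := w.map fun x => x.1 * n + x.2

/-- the constant arguments in front of the first growing argument -/
def constantPrefix : List (ℕ × ℕ) → List ℕ
  | [] => []
  | x :: l => if x.1 = 0 then x.2 :: constantPrefix l else []

/-- the constant arguments in front are all equal to one positive even number -/
def EvenBlock (w : List (ℕ × ℕ)) : Prop := ∃ b s : ℕ, 1 ≤ b ∧ constantPrefix w = List.replicate s (2 * b)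

lemma trunc_eq : ∀ l m, trunc l m = Pool.Agent.TH507.WD.hr l m := by
  intro l
  induction l with
  | nil => intro m; rw [trunc, Pool.Agent.TH507.WD.hr]
  | cons s l ih =>
    intro m
    rw [trunc, Pool.Agent.TH507.WD.hr]
    exact Finset.sum_congr rfl fun j _ => by rw [ih]

lemma mzv_eq : mzv = Pool.Agent.TH507.WD.mz := by
  funext l
  cases l with
  | nil => rw [mzv, Pool.Agent.TH507.WD.mz]
  | cons s l =>
    rw [mzv, Pool.Agent.TH507.WD.mz]
    exact tsum_congr fun k => by rw [trunc_eq]

lemma word_eq : word = Pool.Agent.TH507.DS.word := by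
  funext l
  induction l with
  | nil => rfl
  | cons k l ih => rw [word, Pool.Agent.TH507.DS.word, ih]

lemma shuffles_eq : ∀ u v, shuffles u v = Pool.Agent.TH507.DS.sh u v := by
  intro u v
  induction u, v using Pool.Agent.TH507.DS.sh.induct with
  | case1 v => rw [shuffles, Pool.Agent.TH507.DS.sh]
  | case2 a u => rw [shuffles, Pool.Agent.TH507.DS.sh]
  | case3 a u b v ih1 ih2 => rw [shuffles, Pool.Agent.TH507.DS.sh, ih1, ih2]

lemma stuffles_eq : ∀ k l, stuffles k l = Pool.Agent.TH507.DS.stI k l := by
  intro k l
  induction k, l using Pool.Agent.TH507.DS.stI.induct with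
  | case1 l => rw [stuffles, Pool.Agent.TH507.DS.stI]
  | case2 i k => rw [stuffles, Pool.Agent.TH507.DS.stI]
  | case3 i k j l ih1 ih2 ih3 => rw [stuffles, Pool.Agent.TH507.DS.stI, ih1, ih2, ih3]

lemma sol_of {A : Type} [CommRing A] {φ : List Bool → A} (h : IsSolution φ) : Pool.Agent.Q217.MZ.Sol φ where
  one := h.one
  st := fun k l hk hl => by
    have := h.stuffle k l hk hl
    rw [word_eq, stuffles_eq] at this
    exact this
  sh := fun k l hk hl => by
    have := h.shuffle k l hk hl
    rw [word_eq, shuffles_eq] at this
    exact this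
  ho := fun l hl => by
    have := h.hoffman l hl
    rw [word_eq, shuffles_eq, stuffles_eq] at this
    exact this

lemma adm_of {w : List (ℕ × ℕ)} (h : AdmissiblePattern w) : Pool.Agent.Q217.MZ.AdmW w := by
  refine ⟨fun x hx hx0 => ?_, h.2⟩
  have h1 := h.1 x hx
  by_contra hcon
  exact h1 (Prod.ext hx0 (by simp only; omega))

lemma prefix_eq (w : List (ℕ × ℕ)) :
    Pool.Agent.Q217.MZ.cp w = (constantPrefix w).map fun b => ((0 : ℕ), b) := by
  induction w with
  | nil => rfl
  | cons x l ih =>
    rw [constantPrefix]
    by_cases h : x.1 = 0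
    · rw [if_pos h, Pool.Agent.Q217.MZ.cp_zero l h, List.map_cons, ih]
      congr 1
      exact Prod.ext h rfl
    · rw [if_neg h, Pool.Agent.Q217.MZ.cp_pos l h, List.map_nil]

lemma block_of {w : List (ℕ × ℕ)} (h : EvenBlock w) : Pool.Agent.Q217.MZ.EB w := by
  obtain ⟨b, s, hb, hs⟩ := h
  exact ⟨b, s, hb, by rw [prefix_eq, hs, List.map_replicate]⟩

/-- **Theorem.** Let `w_1, ..., w_k` be admissible patterns whose constant arguments in front of the first growing argument
are all equal to one even number (depending on the pattern), and `D ≥ 0`. There are `B, C > 1` and `n0` such that for all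
`n ≥ n0` and all integer polynomials `f` of degree at most `D` with coefficients of absolute value at most `C ^ n`: if
`|f(ζ(w_1(n)), ..., ζ(w_k(n)))| ≤ B ^ (-n)`, then `f(ζ(w_1(n')), ...) = 0` and `f(φ(w_1(n')), ..., φ(w_k(n'))) = 0` for all
`n' ≥ 2`, all commutative `ℚ`-algebras `A` and all solutions `φ` of the double shuffle equations in `A`. -/
theorem result {k : ℕ} (w : Fin k → List (ℕ × ℕ)) (hw : ∀ i, AdmissiblePattern (w i)) (hE : ∀ i, EvenBlock (w i))
    (D : ℕ) :
    ∃ B C : ℝ, 1 < B ∧ 1 < C ∧ ∃ n0 : ℕ, ∀ n : ℕ, n0 ≤ n → ∀ f : MvPolynomial (Fin k) ℤ,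
      f.totalDegree ≤ D → (∀ m, |((f.coeff m : ℤ) : ℝ)| ≤ C ^ n) →
      |MvPolynomial.aeval (fun i => mzv (args n (w i))) f| ≤ (B ^ n)⁻¹ → ∀ n' : ℕ, 2 ≤ n' →
        MvPolynomial.aeval (fun i => mzv (args n' (w i))) f = 0 ∧
        ∀ (A : Type) [CommRing A] [Algebra ℚ A] (φ : List Bool → A), IsSolution φ →
          MvPolynomial.aeval (fun i => φ (word (args n' (w i)))) f = 0 := by
  obtain ⟨B, C, hB, hC, n0, h⟩ := Pool.Agent.Q217.MZ.ds_even D w (fun i => adm_of (hw i)) fun i => block_of (hE i)
  refine ⟨B, C, hB, hC, n0, fun n hn f hf hc hsmall n' hn' => ?_⟩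
  rw [mzv_eq] at hsmall ⊢
  obtain ⟨h1, h2⟩ := h n hn f hf hc hsmall n' hn'
  refine ⟨h1, fun A _ _ φ hφ => ?_⟩
  rw [word_eq]
  exact h2 A φ (sol_of hφ)

end Pool.Agent.Results.MP_a57f33_nt.EvenBlocks
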